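import Pool.Agent.Y171.CE.Stm

/-!
Project CE (helper171), job CE-PTW (helper310): pointwise bounds for the walk on polynomial matrices.
-/

set_option autoImplicit false

open Polynomial Matrix

namespace Pool.Agent.Y310.CE

open Pool.Agent.Y171.CE

/-- The negative of a nilpotent matrix. -/
def ng {p : ℕ} (N : NilT p) : NilT p :=
  ⟨(-N.1.1, -N.1.2.1, -N.1.2.2), by
    have h := N.2
    linear_combination h⟩

theorem ng_ng {p : ℕ} (N : NilT p) : ng (ng N) = N := by
  apply Subtype.ext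
  simp [ng]

/-- The negative is a bijection. -/
def ngE (p : ℕ) : NilT p ≃ NilT p := ⟨ng, ng, ng_ng, ng_ng⟩

theorem st_ng_mul {p : ℕ} {R : Type} [CommRing R] [Algebra (ZMod p) R] (x : R) (N : NilT p) :
    st x (ng N) * st x N = 1 := by
  have h := N.2
  have h2 : algebraMap (ZMod p) R N.1.1 * algebraMap (ZMod p) R N.1.1
      + algebraMap (ZMod p) R N.1.2.1 * algebraMap (ZMod p) R N.1.2.2 = 0 := by
    rw [← map_mul, ← map_mul, ← map_add, h, map_zero]
  apply Subtype.ext
  change (st x (ng N)).1 * (st x N).1 = 1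
  ext i j
  fin_cases i <;> fin_cases j <;> simp [st, ng, Matrix.mul_apply, Fin.sum_univ_two]
  · linear_combination (- x ^ 2) * h2
  · ring
  · ring
  · linear_combination (- x ^ 2) * h2

theorem pw_cons {p : ℕ} {R : Type} [CommRing R] [Algebra (ZMod p) R] (x : R) (N : NilT p) (l : List (NilT p)) :
    pw x (N :: l) = st x N * pw x l := by
  simp [pw]

theorem pw_app {p : ℕ} {R : Type} [CommRing R] [Algebra (ZMod p) R] (x : R) (l l' : List (NilT p)) :
    pw x (l ++ l') = pw x l * pw x l' := by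
  simp [pw]

theorem pw_step {p : ℕ} {R : Type} [CommRing R] [Algebra (ZMod p) R] (x : R) (N : NilT p) (l : List (NilT p))
    (γ : SL2 R) : pw x (N :: l) = γ ↔ pw x l = st x (ng N) * γ := by
  rw [pw_cons]
  have h1 := st_ng_mul x N
  constructor
  · rintro rfl
    rw [← mul_assoc, h1, one_mul]
  · intro h
    rw [h, ← mul_assoc]
    have h3 : st x N * st x (ng N) = 1 := by
      have := st_ng_mul x (ng N)
      rwa [ng_ng] at this
    rw [h3, one_mul]

/-- Splitting off the first step. -/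
def stepE {p : ℕ} {R : Type} [CommRing R] [Algebra (ZMod p) R] (x : R) (n : ℕ) (γ : SL2 R) :
    {h : Fin (n + 1) → NilT p // pw x (List.ofFn h) = γ} ≃
      Σ N : NilT p, {h : Fin n → NilT p // pw x (List.ofFn h) = st x (ng N) * γ} where
  toFun h := ⟨h.1 0, ⟨fun i => h.1 i.succ, by
    have h2 := h.2
    rw [List.ofFn_succ, pw_step] at h2
    exact h2⟩⟩
  invFun s := ⟨Fin.cons s.1 s.2.1, by
    rw [List.ofFn_succ, pw_step]
    simpa using s.2.2⟩
  left_inv h := by
    apply Subtype.ext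
    funext i
    refine Fin.cases ?_ (fun j => ?_) i <;> simp
  right_inv s := by
    rcases s with ⟨N, h, hh⟩
    simp only [Fin.cons_succ]
    rfl

instance finNil (p : ℕ) [NeZero p] : Finite (NilT p) := Finite.of_fintype _

theorem ptw : S_NIL → S_DG → S_DRIFT → S_PTW := by
  intro _ _ hdr p _ n γ
  have hp : 0 < (p : ℝ) := by exact_mod_cast (Fact.out : p.Prime).pos
  have key : ∀ (n : ℕ) (γ : SL2 (ZMod p)[X]),
      (Nat.card {h : Fin n → NilT p // pw (X : (ZMod p)[X]) (List.ofFn h) = γ} : ℝ)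
        ≤ (4 * (p : ℝ)) ^ n * ((p : ℝ) ^ dg γ)⁻¹ := by
    intro n
    induction n with
    | zero =>
      intro γ
      by_cases hγ : γ = 1
      · subst hγ
        have h0 : dg (1 : SL2 (ZMod p)[X]) = 0 := by
          apply Nat.eq_zero_of_le_zero
          unfold dg
          refine Finset.sup_le (fun i _ => Finset.sup_le (fun j _ => ?_))
          change (((1 : Matrix (Fin 2) (Fin 2) (ZMod p)[X]) i j).natDegree) ≤ 0
          rw [Matrix.one_apply]
          split_ifs <;> simp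
        rw [h0]
        have : Nat.card {h : Fin 0 → NilT p // pw (X : (ZMod p)[X]) (List.ofFn h) = 1} ≤ 1 := by
          rw [← Nat.card_unique (α := Unit)]
          exact Nat.card_le_card_of_injective (fun _ => ()) (fun a b _ => Subtype.ext (Subsingleton.elim _ _))
        have h2 : (Nat.card {h : Fin 0 → NilT p // pw (X : (ZMod p)[X]) (List.ofFn h) = 1} : ℝ) ≤ 1 := by
          exact_mod_cast this
        simpa using h2
      · have : IsEmpty {h : Fin 0 → NilT p // pw (X : (ZMod p)[X]) (List.ofFn h) = γ} := by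
          refine ⟨fun h => hγ ?_⟩
          have := h.2
          simpa [pw] using this.symm
        rw [Nat.card_of_isEmpty]
        have : (0 : ℝ) ≤ (4 * (p : ℝ)) ^ 0 * ((p : ℝ) ^ dg γ)⁻¹ := by positivity
        simp
    | succ n ih =>
      intro γ
      rw [Nat.card_congr (stepE (X : (ZMod p)[X]) n γ), Nat.card_sigma]
      push_cast
      calc ∑ N : NilT p, (Nat.card {h : Fin n → NilT p // pw (X : (ZMod p)[X]) (List.ofFn h) = st X (ng N) * γ} : ℝ)
          ≤ ∑ N : NilT p, (4 * (p : ℝ)) ^ n * ((p : ℝ) ^ dg (st X (ng N) * γ))⁻¹ :=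
            Finset.sum_le_sum (fun N _ => ih _)
        _ = (4 * (p : ℝ)) ^ n * ∑ N : NilT p, ((p : ℝ) ^ dg (st X (ng N) * γ))⁻¹ := by
            rw [Finset.mul_sum]
        _ = (4 * (p : ℝ)) ^ n * ∑ N : NilT p, ((p : ℝ) ^ dg (st X N * γ))⁻¹ := by
            rw [← Equiv.sum_comp (ngE p) (fun N => ((p : ℝ) ^ dg (st X N * γ))⁻¹)]
            rfl
        _ ≤ (4 * (p : ℝ)) ^ n * (4 * p * ((p : ℝ) ^ dg γ)⁻¹) :=
            mul_le_mul_of_nonneg_left (hdr p γ) (by positivity)
        _ = (4 * (p : ℝ)) ^ (n + 1) * ((p : ℝ) ^ dg γ)⁻¹ := by ring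
  have h1 := key n γ
  have h2 : (Nat.card {h : Fin n → NilT p // pw (X : (ZMod p)[X]) (List.ofFn h) = γ} : ℝ) * (p : ℝ) ^ dg γ
      ≤ (4 * (p : ℝ)) ^ n := by
    have h3 : (0 : ℝ) < (p : ℝ) ^ dg γ := by positivity
    calc (Nat.card {h : Fin n → NilT p // pw (X : (ZMod p)[X]) (List.ofFn h) = γ} : ℝ) * (p : ℝ) ^ dg γ
        ≤ ((4 * (p : ℝ)) ^ n * ((p : ℝ) ^ dg γ)⁻¹) * (p : ℝ) ^ dg γ := mul_le_mul_of_nonneg_right h1 h3.le
      _ = (4 * (p : ℝ)) ^ n := by
          rw [mul_assoc, inv_mul_cancel₀ h3.ne', mul_one]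
  exact_mod_cast h2

/-- Matrices of degree less than `b`. -/
def LD (p b : ℕ) : Type := {γ : SL2 (ZMod p)[X] // dg γ < b}

/-- The coefficients. -/
noncomputable def cf (p b : ℕ) (γ : LD p b) : Fin 2 → Fin 2 → Fin b → ZMod p :=
  fun i j k => (γ.1.1 i j).coeff k

theorem natDegree_le_dg {p : ℕ} (γ : SL2 (ZMod p)[X]) (i j : Fin 2) : (γ.1 i j).natDegree ≤ dg γ := by
  unfold dg
  exact le_trans (Finset.le_sup (f := fun j : Fin 2 => (γ.1 i j).natDegree) (Finset.mem_univ j))
    (Finset.le_sup (f := fun i : Fin 2 => Finset.univ.sup (fun j : Fin 2 => (γ.1 i j).natDegree)) (Finset.mem_univ i))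

theorem cf_inj (p b : ℕ) : Function.Injective (cf p b) := by
  intro γ δ h
  apply Subtype.ext
  apply Subtype.ext
  ext i j k
  by_cases hk : k < b
  · exact congrFun (congrFun (congrFun h i) j) ⟨k, hk⟩
  · push Not at hk
    rw [Polynomial.coeff_eq_zero_of_natDegree_lt, Polynomial.coeff_eq_zero_of_natDegree_lt]
    · exact lt_of_le_of_lt (natDegree_le_dg _ i j) (lt_of_lt_of_le δ.2 hk)
    · exact lt_of_le_of_lt (natDegree_le_dg _ i j) (lt_of_lt_of_le γ.2 hk)

theorem finLD (p b : ℕ) [NeZero p] : Finite (LD p b) := Finite.of_injective _ (cf_inj p b)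

theorem cardLD (p b : ℕ) [NeZero p] : Nat.card (LD p b) ≤ p ^ (4 * b) := by
  have h := Nat.card_le_card_of_injective _ (cf_inj p b)
  refine le_trans h (le_of_eq ?_)
  simp only [Nat.card_eq_fintype_card, Fintype.card_fun, Fintype.card_fin, ZMod.card]
  ring

theorem ptw' (hp : S_PTW) (p : ℕ) [Fact p.Prime] (n : ℕ) (γ : SL2 (ZMod p)[X]) :
    Nat.card {h : Fin n → NilT p // pw (X : (ZMod p)[X]) (List.ofFn h) = γ} ≤ (4 * p) ^ n := by
  refine le_trans ?_ (hp p n γ)
  exact Nat.le_mul_of_pos_right _ (pow_pos (Fact.out : p.Prime).pos _)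

theorem low : S_PTW → S_LOW := by
  intro hptw p _ t b
  have := finLD p b
  let _ : Fintype (LD p b) := Fintype.ofFinite _
  let e : {h : Fin t → NilT p // dg (pw (X : (ZMod p)[X]) (List.ofFn h)) < b} ≃
      Σ γ : LD p b, {h : Fin t → NilT p // pw (X : (ZMod p)[X]) (List.ofFn h) = γ.1} :=
    { toFun := fun h => ⟨⟨_, h.2⟩, ⟨h.1, rfl⟩⟩
      invFun := fun s => ⟨s.2.1, by rw [s.2.2]; exact s.1.2⟩
      left_inv := fun h => rfl
      right_inv := by
        rintro ⟨⟨γ, hγ⟩, ⟨h, hh⟩⟩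
        change pw (X : (ZMod p)[X]) (List.ofFn h) = γ at hh
        subst hh
        rfl }
  rw [Nat.card_congr e, Nat.card_sigma]
  calc ∑ γ : LD p b, Nat.card {h : Fin t → NilT p // pw (X : (ZMod p)[X]) (List.ofFn h) = γ.1}
      ≤ ∑ _γ : LD p b, (4 * p) ^ t := Finset.sum_le_sum (fun γ _ => ptw' hptw p t γ.1)
    _ = Nat.card (LD p b) * (4 * p) ^ t := by
        rw [Finset.sum_const, Finset.card_univ, smul_eq_mul, Nat.card_eq_fintype_card]
    _ ≤ p ^ (4 * b) * (4 * p) ^ t := Nat.mul_le_mul_right _ (cardLD p b)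

theorem split {α : Type} (n : ℕ) (h : Fin (2 * n) → α) :
    List.ofFn h = List.ofFn (fun i : Fin n => h ⟨i, by omega⟩) ++ List.ofFn (fun i : Fin n => h ⟨n + i, by omega⟩) := by
  apply List.ext_getElem
  · simp; omega
  · intro i h1 h2
    rw [List.getElem_append]
    split_ifs with h3
    · simp
    · simp only [List.getElem_ofFn, List.length_ofFn] at h3 ⊢
      congr 1
      apply Fin.ext
      simp
      omega

theorem rl : S_DG → S_PTW → S_RL := by
  intro _ hptw p _ n b
  have := finLD p b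
  let _ : Fintype (LD p b) := Fintype.ofFinite _
  let f : {h : Fin (2 * n) → NilT p // pw (X : (ZMod p)[X]) (List.ofFn h) = 1 ∧
      dg (pw (X : (ZMod p)[X]) ((List.ofFn h).take n)) < b} →
      Σ γ : LD p b, {h : Fin n → NilT p // pw (X : (ZMod p)[X]) (List.ofFn h) = γ.1} ×
        {h : Fin n → NilT p // pw (X : (ZMod p)[X]) (List.ofFn h) = γ.1⁻¹} := fun h =>
    ⟨⟨_, h.2.2⟩, ⟨fun i => h.1 ⟨i, by omega⟩, by
        change _ = pw (X : (ZMod p)[X]) ((List.ofFn h.1).take n)
        rw [split n h.1, List.take_left' (by simp)]⟩,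
      ⟨fun i => h.1 ⟨n + i, by omega⟩, by
        change _ = (pw (X : (ZMod p)[X]) ((List.ofFn h.1).take n))⁻¹
        have h1 := h.2.1
        rw [split n h.1, pw_app] at h1
        rw [split n h.1, List.take_left' (by simp)]
        exact (inv_eq_of_mul_eq_one_right h1).symm⟩⟩
  have hf : Function.Injective f := by
    intro h h' e
    apply Subtype.ext
    have e1 : (f h).2.1.1 = (f h').2.1.1 := by rw [e]
    have e2 : (f h).2.2.1 = (f h').2.2.1 := by rw [e]
    funext i
    by_cases hi : i.1 < n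
    · exact congrFun e1 ⟨i.1, hi⟩
    · have h3 := congrFun e2 ⟨i.1 - n, by omega⟩
      have h4 : (⟨n + (i.1 - n), by omega⟩ : Fin (2 * n)) = i := Fin.ext (by simp; omega)
      change h.1 ⟨n + (i.1 - n), by omega⟩ = h'.1 ⟨n + (i.1 - n), by omega⟩ at h3
      rw [h4] at h3
      exact h3
  refine le_trans (Nat.card_le_card_of_injective f hf) ?_
  rw [Nat.card_sigma]
  calc ∑ γ : LD p b, Nat.card ({h : Fin n → NilT p // pw (X : (ZMod p)[X]) (List.ofFn h) = γ.1} ×
        {h : Fin n → NilT p // pw (X : (ZMod p)[X]) (List.ofFn h) = γ.1⁻¹})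
      ≤ ∑ _γ : LD p b, ((4 * p) ^ n) ^ 2 := by
        refine Finset.sum_le_sum (fun γ _ => ?_)
        rw [Nat.card_prod, _root_.sq]
        exact Nat.mul_le_mul (ptw' hptw p n _) (ptw' hptw p n _)
    _ = Nat.card (LD p b) * ((4 * p) ^ n) ^ 2 := by
        rw [Finset.sum_const, Finset.card_univ, smul_eq_mul, Nat.card_eq_fintype_card]
    _ ≤ p ^ (4 * b) * ((4 * p) ^ n) ^ 2 := Nat.mul_le_mul_right _ (cardLD p b)

end Pool.Agent.Y310.CE
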